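import Pool.Agent.Q258.OS.Gen

set_option autoImplicit false

/-!
The Pfaffian identity equivalent to the product formula for the number of off-diagonally symmetric
alternating sign matrices of odd order.
-/

namespace Pool.Agent.Results.MP_d12cfa_co.PfaffianIdentity

/-- The variable `x` of the ring of power series in `y` over the power series in `x`. -/
noncomputable def x : PowerSeries (PowerSeries ℚ) := PowerSeries.C (PowerSeries.X : PowerSeries ℚ)

/-- The variable `y`. -/
noncomputable def y : PowerSeries (PowerSeries ℚ) := PowerSeries.X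

/-- The coefficient of `x ^ a y ^ b`. -/
noncomputable def coeffXY (F : PowerSeries (PowerSeries ℚ)) (a b : ℕ) : ℚ :=
  PowerSeries.coeff a (PowerSeries.coeff b F)

/-- The Pfaffian of a skew-symmetric matrix of size `2 m`: the sum over all permutations `σ` of
`sign σ A_{σ(1) σ(2)} A_{σ(3) σ(4)} ... A_{σ(2m-1) σ(2m)}`, divided by `2 ^ m m!` (here the rows and
columns are numbered from `0`). -/
noncomputable def pfaffian {m : ℕ} (A : Matrix (Fin (2 * m)) (Fin (2 * m)) ℚ) : ℚ :=
  (∑ σ : Equiv.Perm (Fin (2 * m)), ((Equiv.Perm.sign σ : ℤ) : ℚ) *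
    ∏ k : Fin m, A (σ ⟨2 * k, by omega⟩) (σ ⟨2 * k + 1, by omega⟩)) / (2 ^ m * (m.factorial : ℚ))

/-- The skew-symmetric matrix with rows and columns `0, ..., 2 n + 1` whose entries above the diagonal
are `c a b` for `a < b ≤ 2 n` and `v a` in the last column `b = 2 n + 1`. -/
def skewMatrix (c : ℕ → ℕ → ℚ) (v : ℕ → ℚ) (n : ℕ) :
    Matrix (Fin (2 * (n + 1))) (Fin (2 * (n + 1))) ℚ :=
  fun a b =>
    if (a : ℕ) < b then (if (b : ℕ) = 2 * n + 1 then v a else c a b)
    else if (b : ℕ) < a then - (if (a : ℕ) = 2 * n + 1 then v b else c b a)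
    else 0

/-- **The Pfaffian identity.** There is exactly one power series `F` with
`F (1 - x y) (1 - x - y) = y - x`. Let `c a b` be its coefficients. For every `n` the Pfaffian with the
entries `c a b` (`0 ≤ a < b ≤ 2 n`) and the last column `(-1) ^ a` is equal to the Pfaffian with the same
entries and the last column `((-1) ^ a + 2 ^ a) / 2`. More generally, for every `t` the last columns
`t ^ a` and `(1 - t) ^ a` give the same Pfaffian. -/
theorem result :
    (∃! F : PowerSeries (PowerSeries ℚ), F * ((1 - x * y) * (1 - x - y)) = y - x) ∧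
    ∀ F : PowerSeries (PowerSeries ℚ), F * ((1 - x * y) * (1 - x - y)) = y - x → ∀ n : ℕ,
      pfaffian (skewMatrix (coeffXY F) (fun a => (-1) ^ a) n) =
        pfaffian (skewMatrix (coeffXY F) (fun a => ((-1) ^ a + 2 ^ a) / 2) n) ∧
      ∀ t : ℚ, pfaffian (skewMatrix (coeffXY F) (fun a => t ^ a) n) =
        pfaffian (skewMatrix (coeffXY F) (fun a => (1 - t) ^ a) n) := by
  refine ⟨Pool.Agent.Q258.OS.gen_exists, fun F hF n => ?_⟩
  obtain ⟨h, h01⟩ := Pool.Agent.Q258.OS.isArr_of_gen hF
  exact ⟨Pool.Agent.Q258.OS.pf_two h h01 n, fun t => Pool.Agent.Q258.OS.pf_pow h h01 n t⟩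

end Pool.Agent.Results.MP_d12cfa_co.PfaffianIdentity
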